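import Pool.Agent.Helper28.WK.M_KLs
import Pool.Agent.Helper28.LV.M_GenA
import Pool.Agent.Helper78.W5.Asm

/-!
# Central values of the newforms of even weight `k ≥ 4` and level a power of five
-/

set_option autoImplicit false

namespace Pool.Agent.Results.MP_3c9520_nt.AllWeightsFivePowers

open Pool.Agent.Helper14.CV (G0)
open Pool.Agent.Helper14.WK

/-- Let `n ≥ 1`, let `k ≥ 4` be even and let `f` be a newform of weight `k`, level `5^n` and
trivial character with root number `+1`. Then the central value `L(1/2, f)` is not zero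
(`LanK` is the entire continuation of the `L`-series of `f` in the analytic normalisation). -/
theorem result (k : ℤ) (hk : 0 < k) (hk4 : 4 ≤ k) (heven : Even k) (n : ℕ) (hn : 1 ≤ n)
    (f : CuspForm (G0 (5 ^ n)) k) (hf : IsNewformK 5 n f) (hε : RootOneK hk f) :
    Differentiable ℂ (LanK hk f) ∧
    (∀ s : ℂ, 3 / 2 < s.re →
      HasSum (fun m : ℕ => fcK f m / (m : ℂ) ^ (((k : ℂ) - 1) / 2) / (m : ℂ) ^ s)
        (LanK hk f s)) ∧
    LanK hk f (1 / 2) ≠ 0 := by
  have hne : NeZero (5 ^ n) := ⟨pow_ne_zero n (by norm_num)⟩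
  have ls := Pool.Agent.Helper28.WK.hKLs (5 ^ n) hne k hk (by omega) f
  refine ⟨ls.1, ls.2, ?_⟩
  obtain ⟨j, hj⟩ := heven
  obtain ⟨A, hA⟩ : ∃ A : ℕ, k = 2 * (A : ℤ) + 2 := ⟨(j - 1).toNat, by omega⟩
  subst hA
  have hA1 : 1 ≤ A := by omega
  have hn0 : n ≠ 0 := by omega
  exact Pool.Agent.Helper28.LV.genAll 5 (by norm_num) Pool.Agent.Helper78.W5.core5.2 A n hA1
    hne hk f ⟨hf.normalised, hf.hecke, fun h => absurd h hn0, fun _ => hf.hecke_p,
      fun _ => hf.new⟩ hε

end Pool.Agent.Results.MP_3c9520_nt.AllWeightsFivePowers
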