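import Pool.Agent.Helper78.TU.AsmO

/-!
# Central values of the twists of the newforms of level `2^n` by characters of odd conductor
-/

set_option autoImplicit false

open UpperHalfPlane CongruenceSubgroup
open scoped MatrixGroups

namespace Pool.Agent.Results.MP_1d384c_nt.CharacterTwistsTwoPowers

open Pool.Agent.Helper14.CV Pool.Agent.Helper76.TX

/-- Let `n ≥ 5`, let `w = 1` or `w = -1`, and let `χ_1, ..., χ_r` be primitive Dirichlet characters (of
any order) of odd conductors `D_1, ..., D_r > 1` such that `χ_i(2) = 1` or `χ_i(2) = χ_i(-1) = -1`, and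
`χ_i(-1) χ_i(2)^n = w`. Then `L(s, f × χ_i)` has an entire continuation for every cusp form `f` of weight
`2` and level `2^n`, and all newforms `f` of weight `2`, level `2^n`, trivial character and root number
`w` satisfy `L(1/2, f × χ_i) ≠ 0` for all `i` at once, with at most
`48 * 2^(n/2) * ∑_i D_i^2 (log_2 D_i + 2)` exceptions. -/
theorem result (n : ℕ) (hn : 5 ≤ n) (w : ℤ) (r : ℕ) (D : Fin r → ℕ)
    (χ : (i : Fin r) → DirichletCharacter ℂ (D i)) (hD : ∀ i, Odd (D i)) (h1 : ∀ i, 1 < D i)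
    (hχ : ∀ i, (χ i).IsPrimitive) (h2 : ∀ i, χ i 2 = 1 ∨ (χ i 2 = -1 ∧ χ i (-1) = -1))
    (hw : ∀ i, χ i (-1) * χ i 2 ^ n = (w : ℂ)) :
    (∀ (i : Fin r) (f : CuspForm (G0 (2 ^ n)) 2), ∃ L : ℂ → ℂ, IsLTw (χ i) f L) ∧
    {f : CuspForm (G0 (2 ^ n)) 2 | IsNewform n f ∧ RootNum w f ∧
        ∃ (i : Fin r) (L : ℂ → ℂ), IsLTw (χ i) f L ∧ L (1 / 2) = 0}.encard ≤
      ((48 * (∑ i, D i ^ 2 * (Nat.log 2 (D i) + 2)) * 2 ^ (n / 2) : ℕ) : ℕ∞) := by
  refine ⟨fun i f => ?_, ?_⟩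
  · exact Pool.Agent.Helper78.TU.anl.2.2 (2 ^ n) inferInstance f (D i)
      ⟨by have := h1 i; omega⟩ (χ i) (hχ i)
  · exact Pool.Agent.Helper78.TU.all n hn w r D χ
      fun i => ⟨hD i, h1 i, hχ i, h2 i, hw i⟩

end Pool.Agent.Results.MP_1d384c_nt.CharacterTwistsTwoPowers
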