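import Pool.Agent.Helper1.TW.M_PhE
import Pool.Agent.Helper10.CV.M_A1b
import Pool.Agent.Helper10.CV.M_N1
import Pool.Agent.Helper13.TW.M_Bnb
import Pool.Agent.Helper13.TX.M_AN4
import Pool.Agent.Helper16.CV.M_N3
import Pool.Agent.Helper16.TW.M_Bna
import Pool.Agent.Helper16.TX.M_Nva
import Pool.Agent.Helper21.CV.M_A8
import Pool.Agent.Helper21.TW.M_Nil
import Pool.Agent.Helper22.TW.M_Up
import Pool.Agent.Helper26.CV.M_A4
import Pool.Agent.Helper29.TW.M_Lin
import Pool.Agent.Helper29.TX.M_AN3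
import Pool.Agent.Helper35.TW.M_CntC
import Pool.Agent.Helper36.CV.M_N4
import Pool.Agent.Helper36.TW.M_Coef
import Pool.Agent.Helper38.CV.M_A6a
import Pool.Agent.Helper40.TX.M_Nvb
import Pool.Agent.Helper42.TX.M_AN6
import Pool.Agent.Helper47.TW.M_Ind
import Pool.Agent.Helper55.CV.M_A2
import Pool.Agent.Helper55.TW.M_Cm
import Pool.Agent.Helper55.TX.M_AN5
import Pool.Agent.Helper61.TW.M_Chr
import Pool.Agent.Helper61.TX.M_AN1
import Pool.Agent.Helper63.TW.M_Val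
import Pool.Agent.Helper64.TW.M_Zer
import Pool.Agent.Helper66.TW.M_Rk
import Pool.Agent.Helper67.TW.M_Alg
import Pool.Agent.Helper69.TW.M_Cm2
import Pool.Agent.Helper7.CV.M_A1
import Pool.Agent.Helper7.TW.M_PhW
import Pool.Agent.Helper7.TX.M_AN2
import Pool.Agent.Helper71.CV.M_A2c
import Pool.Agent.Helper72.CV.M_A3
import Pool.Agent.Helper78.TW.Asm
import Pool.Agent.Helper78.TW.M_Fin
import Pool.Agent.Helper78.TW.M_NvX
import Pool.Agent.Helper78.TW.M_NvcX
import Pool.Agent.Helper79.CV.M_A6b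
import Pool.Agent.Helper80.TX.M_Grid
import Pool.Agent.Helper80.TX.M_LTE
import Pool.Agent.Helper86.CV.M_P345
import Pool.Agent.Helper87.CV.M_P12
import Pool.Agent.Helper9.TW.M_Stb
import Pool.Agent.Helper92.TX.M_LTC
import Pool.Agent.Helper96.CV.M_A6
import Pool.Agent.Helper97.TX.M_Pth
import Pool.Agent.Helper99.CV.M_N2

/-!
# Central values of the twists of the newforms of level `2^n` by even characters of odd conductor
-/

set_option autoImplicit false

open UpperHalfPlane CongruenceSubgroup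
open scoped MatrixGroups

namespace Pool.Agent.Results.MP_1d384c_nt.EvenCharacterTwists

open Pool.Agent.Helper14.CV Pool.Agent.Helper76.TX

private theorem tw (D : ℕ) (hN : NeZero D) (χ : DirichletCharacter ℂ D) (hD : Odd D) (h1 : 1 < D)
    (hχ : χ.IsPrimitive) (hm : χ (-1) = 1) (h2 : χ 2 = 1) :
    (∀ (n : ℕ) (f : CuspForm (G0 (2 ^ n)) 2), ∃ L : ℂ → ℂ, IsLTw χ f L) ∧
    ∃ C : ℕ, ∀ n : ℕ, 5 ≤ n →
      (Pool.Agent.Helper78.TW.Exc χ n).encard ≤ ((C * 2 ^ (n / 2) : ℕ) : ℕ∞) := by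
  have a1 := Pool.Agent.Helper7.CV.hA1
  have a1b := Pool.Agent.Helper10.CV.hA1b a1
  have a2 := Pool.Agent.Helper55.CV.hA2 a1
  have a2c := Pool.Agent.Helper71.CV.hA2c a1
  have a3 := Pool.Agent.Helper72.CV.hA3 a1
  have a3W := Pool.Agent.Helper72.CV.hA3W a1
  have a3T := Pool.Agent.Helper72.CV.hA3T a1 a1b
  have a4 := Pool.Agent.Helper26.CV.hA4 a1 a1b a3
  have p1 := Pool.Agent.Helper87.CV.hP1
  have a6 := Pool.Agent.Helper96.CV.hA6 a1 a1b a3 Pool.Agent.Helper38.CV.hA6a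
    (Pool.Agent.Helper79.CV.hA6b a1) p1
  have a8 := Pool.Agent.Helper21.CV.hA8 a1
  have n1 := Pool.Agent.Helper10.CV.hN1
  have n3 := Pool.Agent.Helper16.CV.hN3 a1 a2 a2c a3 n1
  have n4 := Pool.Agent.Helper36.CV.hN4 a8 Pool.Agent.Helper99.CV.hN2 n3
  have p2 := Pool.Agent.Helper87.CV.hP2 a3 p1
  have p3 := Pool.Agent.Helper86.CV.hP3 a2
  have p4 := Pool.Agent.Helper86.CV.hP4 a3W p1
  have p5 := Pool.Agent.Helper86.CV.hP5 a3T p1
  obtain ⟨nrm, ev, com, hkS, edg, ex, itr, low0, kk, dim, bas, core⟩ := Pool.Agent.Helper78.TW.base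
  -- the twisted functional
  have cm := Pool.Agent.Helper69.TW.hCm2 hkS (Pool.Agent.Helper55.TW.hCm hkS)
  have phW := Pool.Agent.Helper7.TW.hPhW
  have phE := Pool.Agent.Helper1.TW.hPhE phW
  have lin := Pool.Agent.Helper29.TW.hLin nrm ev com kk phE
  have coef := Pool.Agent.Helper36.TW.hCoef lin dim
  have nil := Pool.Agent.Helper21.TW.hNil itr low0
  have nva := Pool.Agent.Helper16.TX.hNva (Pool.Agent.Helper97.TX.hPth edg) edg
  have nvb := Pool.Agent.Helper40.TX.hNvb Pool.Agent.Helper80.TX.hGrid nva ex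
  have nv := Pool.Agent.Helper78.TW.nvOfNvc (Pool.Agent.Helper78.TW.nvc nvb)
  have stb := Pool.Agent.Helper9.TW.hStb nv lin dim bas
  have bna := Pool.Agent.Helper16.TW.hBna coef cm bas nil Pool.Agent.Helper66.TW.hRk
  have bnb := Pool.Agent.Helper13.TW.hBnb bna Pool.Agent.Helper22.TW.hUp dim lin cm
  have alg := Pool.Agent.Helper67.TW.hAlg stb bnb
  -- newforms and characters
  have ind := Pool.Agent.Helper47.TW.hInd a1
  have cnt := Pool.Agent.Helper35.TW.hCntC a1 a4 a6 a8 n4 p1 p2 p3 p4 p5 core ind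
  have chr := Pool.Agent.Helper61.TW.hChr Pool.Agent.Helper63.TW.hVal
  have zer := Pool.Agent.Helper64.TW.hZer phW phE chr
  -- the L-functions
  have an1 := Pool.Agent.Helper61.TX.hAN1
  have an3 := Pool.Agent.Helper29.TX.hAN3
  have an5 := Pool.Agent.Helper55.TX.hAN5 Pool.Agent.Helper13.TX.hAN4 a1 an3
  have an6 := Pool.Agent.Helper42.TX.hAN6 a1 an1
    Pool.Agent.Helper7.TX.hAN2
  have ltc := Pool.Agent.Helper92.TX.hLTC an5 an6 an3
  exact ⟨fun n f => Pool.Agent.Helper80.TX.hLTE an5 an6 an3 (2 ^ n) inferInstance f D hN χ hχ,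
    Pool.Agent.Helper78.TW.fin alg cnt chr zer ltc D hN χ hD h1 hχ hm h2⟩

/-- Let `χ` be a primitive Dirichlet character (of any order) modulo an odd `D > 1` with
`χ(-1) = χ(2) = 1`. Then `L(s, f × χ)` has an entire continuation for every cusp form `f` of weight
`2` and level `2^n`, and there is a constant `C` such that for all `n ≥ 5` the newforms `f` of weight
`2`, level `2^n`, trivial character and root number `+1` satisfy `L(1/2, f × χ) ≠ 0` with at most
`C 2^(n/2)` exceptions. -/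
theorem result (D : ℕ) [NeZero D] (χ : DirichletCharacter ℂ D) (hD : Odd D) (h1 : 1 < D)
    (hχ : χ.IsPrimitive) (heven : χ (-1) = 1) (h2 : χ 2 = 1) :
    (∀ (n : ℕ) (f : CuspForm (G0 (2 ^ n)) 2), ∃ L : ℂ → ℂ, IsLTw χ f L) ∧
    ∃ C : ℕ, ∀ n : ℕ, 5 ≤ n →
      {f : CuspForm (G0 (2 ^ n)) 2 | IsNewform n f ∧ RootOne f ∧
        ∃ L : ℂ → ℂ, IsLTw χ f L ∧ L (1 / 2) = 0}.encard ≤ ((C * 2 ^ (n / 2) : ℕ) : ℕ∞) :=
  tw D inferInstance χ hD h1 hχ heven h2

end Pool.Agent.Results.MP_1d384c_nt.EvenCharacterTwists
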