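import Pool.Agent.Helper54.GL.AllM
import Pool.Agent.Helper3.PD.Twist

/-!
# The law of the 2-Selmer groups of the quadratic twists of generic odd hyperelliptic curves over `F(t)`

Let `F` be a finite field of odd characteristic and `f_1, ..., f_n ∈ F[t][x]`, `n ≥ 1`, monic of odd degrees
`2 g_i + 1 ≥ 3`, such that the Galois group of `f_1 ... f_n` over `F'(t)`, `F'` the algebraic closure of `F`, is the full
product of symmetric groups, and such that for every `i` some irreducible polynomial of `F[t]` divides
the discriminant of `f_i` exactly once and no other discriminant.  Then, for `D` monic squarefree of degree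
`m → ∞` (natural order), the 2-Selmer groups over `F(t)` of the quadratic twists `D y ^ 2 = f_i(x)`, `i = 1, ..., n`, have ranks
at most `r_1, ..., r_n` with lower density at least the product of the probabilities of the law of
Heath-Brown and of Poonen and Rains.  In particular all of them vanish (so that the Jacobians have rank `0` and no
`2`-torsion in their Tate–Shafarevich groups) with lower density at least `(0.2097...)^n`.
For these twists it is also proved that the group of `F(t)`-points of the Jacobian modulo `2`, the group of ideal
classes of `F(t)[x, y] / (y ^ 2 - h_i(x))` modulo squares, has at most `2 ^ r_i` elements.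
-/

set_option autoImplicit false

namespace Pool.Agent.Results.MP_1d384c_nt.LawOfTwists

open Filter Polynomial Finset Pool.Agent.Helper3.GTR Pool.Agent.Helper54.GLR
open Pool.Agent.Helper3.PD (PicModTwoAtMost)

theorem result (F : Type) [Field F] [Finite F] (h2 : (2 : F) ≠ 0) (ι : Type) [Fintype ι] [Nonempty ι]
    (g : ι → ℕ) (f : ι → F[X][X]) (hf : IsGenericFamily g f) :
    2097 / 10000 < prob 0 ∧
      ∀ (r : ι → ℕ) (ε : ℝ), 0 < ε → ∀ᶠ m : ℕ in atTop,
        (∏ i, ∑ j ∈ range (r i + 1), prob j - ε) * ((allowedTwists f m).ncard : ℝ) ≤
          ({D ∈ allowedTwists f m | ∀ i, SelmerAtMost (twist (f i) D) (2 ^ r i) ∧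
            PicModTwoAtMost (twist (f i) D) (2 ^ r i)}.ncard : ℝ) := by
  refine ⟨Pool.Agent.Helper54.GL.num_Num, fun r ε hε => ?_⟩
  refine (main_of Pool.Agent.Helper54.GL.mGLX F h2 ι g f hf r ε hε).mono fun m hm => ?_
  rw [Pool.Agent.Helper3.PD.twistSet_eq h2 hf r m]
  exact hm

end Pool.Agent.Results.MP_1d384c_nt.LawOfTwists
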