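import Pool.Agent.Helper78.T3.M_Gf
import Pool.Agent.Helper78.T3.M_AsmF
import Pool.Agent.Helper78.T3.M_FinE3
import Pool.Agent.Helper14.T3.M_Alg
import Pool.Agent.Helper28.T3E.Full
import Pool.Agent.Helper28.T3.Asm
import Pool.Agent.Helper63.T3.M_QFD
import Pool.Agent.Helper56.T3E.M_TDS

/-!
# Quadratic twists of the newforms of weight 2 and level a power of three
-/

set_option autoImplicit false

open UpperHalfPlane CongruenceSubgroup
open scoped MatrixGroups NumberField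

namespace Pool.Agent.Results.MP_1d384c_nt.WeakGoldfeldThreePowers

open Pool.Agent.Helper14.CV

/-- `f` is a newform of weight `2`, level `3^n` and trivial character: it is a cusp form on `Γ₀(3^n)`
with first coefficient `1`, an eigenform of all Hecke operators `T_p`, `p ≠ 3` prime, and of `U_3`,
and its eigenvalues at the primes `p ≠ 3` do not come from the lower level `3^(n-1)` (no nonzero cusp
form on `Γ₀(3^(n-1))` has the same eigenvalues at all primes `p ≠ 3`). -/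
structure IsNew (n : ℕ) (f : CuspForm (G0 (3 ^ n)) 2) : Prop where
  normalised : fc f 1 = 1
  hecke : ∀ p : ℕ, p.Prime → p ≠ 3 → HeckeEig f p (fc f p)
  hecke_three : ∀ m : ℕ, fc f (3 * m) = fc f 3 * fc f m
  new : ∀ g : CuspForm (G0 (3 ^ (n - 1))) 2,
    (∀ p : ℕ, p.Prime → p ≠ 3 → HeckeEig g p (fc f p)) → g = 0

/-- The root number of `f` is `w`: the completed function satisfies `Λ(s,f) = w Λ(1-s,f)` in the
strip `-1/2 < Re s < 3/2`, where neither Gamma factor has a pole. -/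
def HasRoot {N : ℕ} [NeZero N] (w : ℤ) (f : CuspForm (G0 N) 2) : Prop :=
  ∀ s : ℂ, -1 / 2 < s.re → s.re < 3 / 2 → Lam f s = (w : ℂ) * Lam f (1 - s)

/-- `L` is the `L`-function of the twist of `f` by the quadratic character `m ↦ (m/D)` in the analytic
normalisation (centre `1/2`): it is entire and `L(s) = ∑ (m/D) a_m m^(-1/2) m^(-s)` for `Re s > 3/2`. -/
def IsTwistL {N : ℕ} (D : ℕ) (f : CuspForm (G0 N) 2) (L : ℂ → ℂ) : Prop :=
  Differentiable ℂ L ∧ ∀ s : ℂ, 3 / 2 < s.re →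
    HasSum (fun m : ℕ => ((jacobiSym (m : ℤ) D : ℤ) : ℂ) * fc f m / (m : ℂ) ^ (1 / 2 : ℂ) /
      (m : ℂ) ^ s) (L s)

/-- `D` is good of sign `e`: `D` is squarefree and

* `e = -1`, `D = 7` modulo `12` and the class number of the quadratic field of discriminant `-D` is
  not divisible by `3`, or
* `e = 1`, `1 < D`, `D = 5` modulo `12` and the class number of the quadratic field of discriminant
  `-3D` is not divisible by `3`. -/
def Good (e : ℤ) (D : ℕ) : Prop :=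
  Squarefree D ∧ ∃ (K : Type) (_ : Field K) (_ : NumberField K),
    Module.finrank ℚ K = 2 ∧ ¬ 3 ∣ NumberField.classNumber K ∧
      ((e = -1 ∧ D % 12 = 7 ∧ NumberField.discr K = -(D : ℤ)) ∨
        (e = 1 ∧ 1 < D ∧ D % 12 = 5 ∧ NumberField.discr K = -(3 * D : ℤ)))

open Pool.Agent.Helper28.T3 in
private theorem finrank_of {D : ℕ} {K : Type} [Field K] [NumberField K] (q : QF D K) :
    Module.finrank ℚ K = 2 := by
  rw [← NumberField.RingOfIntegers.rank, Module.finrank_eq_card_basis q.b, Fintype.card_fin]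

open Pool.Agent.Helper28.T3 in
private theorem good_neg {D : ℕ} (hsq : Squarefree D) (hmod : D % 24 = 19)
    (h3 : ¬ (3 : ℤ) ∣ TD D) : Good (-1) D := by
  refine ⟨hsq, ?_⟩
  obtain ⟨K, iF, iN, ⟨q⟩⟩ := Pool.Agent.Helper47.T3.hQFE D hsq (by omega)
  refine ⟨K, iF, iN, finrank_of q, ?_, Or.inl ⟨rfl, by omega, Pool.Agent.Helper36.T3.hDSC D K q⟩⟩
  intro h
  have hc := cnf D K q hsq (by omega) (by omega)
  apply h3
  rw [← dvd_abs, ← hc]
  exact Dvd.dvd.mul_left (by exact_mod_cast h) _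

open Pool.Agent.Helper28.T3 in
private theorem good_pos {D : ℕ} (h1 : 1 < D) (hsq : Squarefree D) (hmod : D % 24 = 17)
    (h9 : ¬ (9 : ℤ) ∣ TD (3 * D)) : Good 1 D := by
  refine ⟨hsq, ?_⟩
  have hcop : Nat.Coprime 3 D := by
    rw [Nat.Prime.coprime_iff_not_dvd Nat.prime_three]
    omega
  have hsq3 : Squarefree (3 * D) := (Nat.squarefree_mul hcop).2 ⟨Nat.prime_three.squarefree, hsq⟩
  obtain ⟨K, iF, iN, ⟨q⟩⟩ := Pool.Agent.Helper47.T3.hQFE (3 * D) hsq3 (by omega)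
  refine ⟨K, iF, iN, finrank_of q, ?_, Or.inr ⟨rfl, h1, by omega, ?_⟩⟩
  · intro h
    have hc := cnf (3 * D) K q hsq3 (by omega) (by omega)
    apply h9
    rw [← dvd_abs, ← hc]
    have h' : (3 : ℤ) ∣ ((NumberField.classNumber K : ℕ) : ℤ) := by exact_mod_cast h
    obtain ⟨k, hk⟩ := h'
    exact ⟨D * k, by rw [hk]; push_cast; ring⟩
  · rw [Pool.Agent.Helper36.T3.hDSC (3 * D) K q]
    push_cast
    ring

private theorem card_le {N : ℕ} {f : Set ℕ} (G : Finset ℕ) (hf : ∀ D ∈ f, D ≤ N)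
    (hG : ∀ D ∈ G, D ∈ f) : (G.card : ℝ) ≤ (f.ncard : ℝ) := by
  have hfin : f.Finite := (Set.finite_Iic N).subset fun D hD => hf D hD
  have h := Set.ncard_le_ncard (s := (G : Set ℕ)) (t := f) (fun D hD => hG D hD) hfin
  rw [Set.ncard_coe_finset] at h
  exact_mod_cast h

open Pool.Agent.Helper28.T3 in
private theorem count : ∃ N0 : ℕ, ∀ e : ℤ, (e = 1 ∨ e = -1) → ∀ N : ℕ, N0 ≤ N →
    (N : ℝ) / 100 ≤ ({D : ℕ | D ≤ N ∧ Good e D}.ncard : ℝ) := by
  classical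
  obtain ⟨N1, h1⟩ := fin
  obtain ⟨N2, h2⟩ := finq 17 (Or.inr rfl)
  refine ⟨max N1 N2, ?_⟩
  intro e he N hN
  rcases he with rfl | rfl
  · obtain ⟨G, hG⟩ : ∃ G : Finset ℕ, G = (Finset.range (N + 1)).filter
      fun D => 1 < D ∧ Squarefree D ∧ D % 24 = 17 ∧ ¬ (9 : ℤ) ∣ TD (3 * D) := ⟨_, rfl⟩
    have hGm : ∀ D, D ∈ G ↔ (1 < D ∧ D ≤ N ∧ Squarefree D ∧ D % 24 = 17 ∧
        ¬ (9 : ℤ) ∣ TD (3 * D)) := by
      intro D
      rw [hG, Finset.mem_filter, Finset.mem_range, Nat.lt_succ_iff]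
      tauto
    refine (h2 N (le_trans (le_max_right _ _) hN) G hGm).trans (card_le G (fun D hD => hD.1) ?_)
    intro D hD
    obtain ⟨a0, a1, a2, a3, a4⟩ := (hGm D).1 hD
    exact ⟨a1, good_pos a0 a2 a3 a4⟩
  · obtain ⟨G, hG⟩ : ∃ G : Finset ℕ, G = (Finset.range (N + 1)).filter
      fun D => Squarefree D ∧ D % 24 = 19 ∧ ¬ (3 : ℤ) ∣ TD D := ⟨_, rfl⟩
    have hGm : ∀ D, D ∈ G ↔ (D ≤ N ∧ Squarefree D ∧ D % 24 = 19 ∧ ¬ (3 : ℤ) ∣ TD D) := by
      intro D
      rw [hG, Finset.mem_filter, Finset.mem_range, Nat.lt_succ_iff]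
    refine (h1 N (le_trans (le_max_left _ _) hN) G hGm).trans (card_le G (fun D hD => hD.1) ?_)
    intro D hD
    obtain ⟨a1, a2, a3, a4⟩ := (hGm D).1 hD
    exact ⟨a1, good_neg a2 a3 a4⟩

/-- Every newform `f` of weight `2`, level `3^n`, `n ≥ 3`, and trivial character has a root number
`w = 1` or `w = -1`; its twists by the characters `(·/D)`, `D` odd and squarefree, have an entire
`L`-function, and `L(1/2, f × (·/D)) ≠ 0` for every good `D` of the sign `w (-1)^n`. For both signs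
`e` and all `N ≥ N0` at least `N/100` of the numbers `D ≤ N` are good of sign `e`. So the same positive
proportion of the `D` works for all `n` and all `f` with the same `w (-1)^n`. -/
theorem result :
    (∀ (n : ℕ) (f : CuspForm (G0 (3 ^ n)) 2), 3 ≤ n → IsNew n f →
      ∃ w : ℤ, (w = 1 ∨ w = -1) ∧ HasRoot w f ∧
        (∀ D : ℕ, Odd D → Squarefree D → ∃ L : ℂ → ℂ, IsTwistL D f L) ∧
        ∀ D : ℕ, Good (w * (-1) ^ n) D → ∀ L : ℂ → ℂ, IsTwistL D f L → L (1 / 2) ≠ 0) ∧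
    ∃ N0 : ℕ, ∀ e : ℤ, (e = 1 ∨ e = -1) → ∀ N : ℕ, N0 ≤ N →
      (N : ℝ) / 100 ≤ ({D : ℕ | D ≤ N ∧ Good e D}.ncard : ℝ) := by
  refine ⟨?_, count⟩
  obtain ⟨hG, hRN, hJac, hLTE⟩ := Pool.Agent.Helper78.T3.asmF
  have hT := Pool.Agent.Helper78.T3.hFinT3 hG Pool.Agent.Helper14.T3.core3
  have hE := Pool.Agent.Helper78.T3.hFinE3 hG Pool.Agent.Helper28.T3E.core
  have hA := Pool.Agent.Helper78.T3.hGfA hJac hLTE hRN Pool.Agent.Helper28.T3.cnf
    Pool.Agent.Helper63.T3.hQFD Pool.Agent.Helper56.T3E.hTDS hT hE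
  intro n f hn hf
  obtain ⟨w, hw, hR, h⟩ := hA n f hn ⟨hf.normalised, hf.hecke, hf.hecke_three, hf.new⟩
  refine ⟨w, hw, hR, fun D hD hsq => (h D hD hsq).1, ?_⟩
  rintro D ⟨hsq, K, iF, iN, hK, hh, hc⟩ L hL
  have hpow : ((-1 : ℤ)) ^ n * (-1) ^ n = 1 := by
    rw [← mul_pow]
    simp
  have hodd : Odd D := by
    rcases hc with ⟨_, h, _⟩ | ⟨_, _, h, _⟩ <;> exact Nat.odd_iff.mpr (by omega)
  refine (h D hodd hsq).2 K hK hh ?_ L hL
  rcases hc with ⟨h1, h2, h3⟩ | ⟨h1, h2, h3, h4⟩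
  · refine Or.inl ⟨?_, h2, h3⟩
    calc w = w * ((-1) ^ n * (-1) ^ n) := by rw [hpow, mul_one]
      _ = (w * (-1) ^ n) * (-1) ^ n := by ring
      _ = -(-1) ^ n := by rw [h1]; ring
  · refine Or.inr ⟨?_, h2, h3, h4⟩
    calc w = w * ((-1) ^ n * (-1) ^ n) := by rw [hpow, mul_one]
      _ = (w * (-1) ^ n) * (-1) ^ n := by ring
      _ = (-1) ^ n := by rw [h1]; ring

end Pool.Agent.Results.MP_1d384c_nt.WeakGoldfeldThreePowers
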